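import Pool.Agent.H6.FI.TargetsB
import Pool.Agent.H63.FI.SOL

/-!
# Closure of the class of groups whose nonabelian chief factors have order 60
-/

set_option autoImplicit false

open scoped Classical

namespace Pool.Agent.H77.FI

open _root_.FI

theorem pf_ACL (h1 : T_AKR) (h2 : T_SQ) : T_ACL := by
  constructor
  · intro X' X _ _ _ _ f hf hX
    obtain ⟨n, g, hg⟩ := hX
    refine ⟨n, g.comp f, ?_⟩
    have hmem : ∀ x : (g.comp f).ker, f x ∈ g.ker := by
      intro x
      have h := x.2
      rw [MonoidHom.mem_ker, MonoidHom.comp_apply] at h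
      rw [MonoidHom.mem_ker]
      exact h
    let φ : (g.comp f).ker →* g.ker := (f.comp (g.comp f).ker.subtype).codRestrict g.ker hmem
    have hφ : Function.Injective φ := by
      intro a b hab
      have h : f a = f b := congrArg Subtype.val hab
      exact Subtype.ext (hf h)
    exact Group.isSolvable_of_isSolvable_injective hφ
  · intro X X' _ _ _ _ p hp hker hX
    obtain ⟨n, f, hf, _⟩ := h1 X hX
    have hle : p.ker ≤ f.ker := by
      rw [hf, ← (h2 X X' p hp hker).2]
      intro x hx
      rw [Subgroup.mem_comap, MonoidHom.mem_ker.1 hx]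
      exact one_mem _
    have hsol : Group.IsSolvable f.ker := by
      rw [hf]
      exact (Pool.Agent.H63.FI.pf_SOL X).1
    have hcomp : ∀ x, (p.liftOfSurjective hp ⟨f, hle⟩) (p x) = f x := fun x =>
      MonoidHom.liftOfRightInverse_comp_apply p _ (Function.rightInverse_surjInv hp) ⟨f, hle⟩ x
    refine ⟨n, p.liftOfSurjective hp ⟨f, hle⟩, ?_⟩
    have hmem : ∀ x : f.ker, p x ∈ (p.liftOfSurjective hp ⟨f, hle⟩).ker := by
      intro x
      rw [MonoidHom.mem_ker, hcomp]
      exact x.2
    let φ : f.ker →* (p.liftOfSurjective hp ⟨f, hle⟩).ker :=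
      (p.comp f.ker.subtype).codRestrict _ hmem
    have hφ : Function.Surjective φ := by
      rintro ⟨y, hy⟩
      obtain ⟨x, rfl⟩ := hp y
      rw [MonoidHom.mem_ker, hcomp] at hy
      exact ⟨⟨x, hy⟩, rfl⟩
    exact Group.isSolvable_of_surjective hφ

end Pool.Agent.H77.FI
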