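import Pool.Agent.H6.FI.TargetsA

/-!
# The kernel of the action on the blocks, large orbits
-/

set_option autoImplicit false

open scoped Classical

namespace Pool.Agent.H77.FI

open _root_.FI

theorem rix_ne' {R : Type} [Group R] [Finite R] (A B : Subgroup R) : A.relIndex B ≠ 0 :=
  Subgroup.index_ne_zero_of_finite

theorem c0_gt : 1 < c0 := by
  unfold c0
  exact Real.one_lt_rpow (by norm_num) (by norm_num)

theorem c0_pos : 0 < c0 := lt_trans one_pos c0_gt

section

variable {R V ι : Type} [Group R] [AddCommGroup V] (ρ : R →* AddMonoid.End V) (B : Subgroup R)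
  (W : ι → AddSubgroup V)

/-- the kernel on the blocks in `s` -/
def kk (s : Finset ι) : Subgroup R := B ⊓ ⨅ c ∈ s, Ck ρ (W c)

variable {ρ B W}

theorem mem_kk {s : Finset ι} {r : R} : r ∈ kk ρ B W s ↔ r ∈ B ∧ ∀ c ∈ s, r ∈ Ck ρ (W c) := by
  unfold kk
  rw [Subgroup.mem_inf, Subgroup.mem_iInf]
  simp only [Subgroup.mem_iInf]

theorem kk_le (s : Finset ι) : kk ρ B W s ≤ B := inf_le_left

theorem kk_mono {s t : Finset ι} (h : s ⊆ t) : kk ρ B W t ≤ kk ρ B W s := by
  intro r hr
  rw [mem_kk] at hr ⊢
  exact ⟨hr.1, fun c hc => hr.2 c (h hc)⟩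

theorem rho_mul_inv (r : R) (v : V) : ρ r (ρ r⁻¹ v) = v := by
  have h : ρ (r * r⁻¹) v = v := by
    rw [mul_inv_cancel, map_one]
    rfl
  rw [map_mul, AddMonoid.End.coe_mul, Function.comp_apply] at h
  exact h

theorem kk_normal (hW : ∀ c, Inv ρ B (W c)) (s : Finset ι) :
    ∀ x ∈ B, ∀ y ∈ kk ρ B W s, x * y * x⁻¹ ∈ kk ρ B W s := by
  intro x hx y hy
  rw [mem_kk] at hy ⊢
  refine ⟨B.mul_mem (B.mul_mem hx hy.1) (B.inv_mem hx), fun c hc w hw => ?_⟩
  rw [map_mul, map_mul, AddMonoid.End.coe_mul, Function.comp_apply, AddMonoid.End.coe_mul,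
    Function.comp_apply, hy.2 c hc _ (hW c x⁻¹ (B.inv_mem hx) w hw)]
  exact rho_mul_inv x w

theorem kk_insert (a : ι) (s : Finset ι) :
    kk ρ B W (insert a s) = kk ρ B W s ⊓ Ck ρ (W a) := by
  ext r
  rw [Subgroup.mem_inf, mem_kk, mem_kk]
  constructor
  · rintro ⟨h1, h2⟩
    exact ⟨⟨h1, fun c hc => h2 c (Finset.mem_insert_of_mem hc)⟩,
      h2 a (Finset.mem_insert_self a s)⟩
  · rintro ⟨⟨h1, h2⟩, h3⟩
    refine ⟨h1, fun c hc => ?_⟩
    rcases Finset.mem_insert.1 hc with rfl | hc
    · exact h3
    · exact h2 c hc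

end

theorem pf_CHL : T_CHL := by
  intro R V ι _ _ _ _ _ ρ B W hsup hW hyp hnt
  have hfin : Fintype ι := Fintype.ofFinite ι
  -- a set of blocks of minimal cardinality which gives the kernel
  have huniv : kk ρ B W Finset.univ ≤ Ck ρ ⊤ := by
    intro r hr w _
    rw [mem_kk] at hr
    have h1 : w ∈ iSup W := by
      rw [hsup]
      exact AddSubgroup.mem_top w
    have h2 : iSup W ≤ (AddMonoidHom.eqLocus (ρ r : V →+ V) (AddMonoidHom.id V)) := by
      apply iSup_le
      intro c v hv
      exact hr.2 c (Finset.mem_univ c) v hv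
    exact h2 h1
  obtain ⟨A, hA, hmin⟩ := Finset.exists_min_image
    ((Finset.univ : Finset (Finset ι)).filter fun s => kk ρ B W s ≤ Ck ρ ⊤) Finset.card
    ⟨Finset.univ, Finset.mem_filter.2 ⟨Finset.mem_univ _, huniv⟩⟩
  have hA1 : kk ρ B W A ≤ Ck ρ ⊤ := (Finset.mem_filter.1 hA).2
  have hmin1 : ∀ s : Finset ι, kk ρ B W s ≤ Ck ρ ⊤ → A.card ≤ s.card := fun s hs =>
    hmin s (Finset.mem_filter.2 ⟨Finset.mem_univ _, hs⟩)
  have hne : A.Nonempty := by
    rw [Finset.nonempty_iff_ne_empty]
    rintro rfl
    obtain ⟨r, hr, v, hv⟩ := hnt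
    apply hv
    have h1 : r ∈ kk ρ B W ∅ := by
      rw [mem_kk]
      exact ⟨hr, fun c hc => absurd hc (Finset.notMem_empty c)⟩
    exact hA1 h1 v (AddSubgroup.mem_top v)
  have key : ∀ s : Finset ι, s ⊆ A → ∃ x : ι → V, (∀ c ∈ s, x c ∈ W c ∧ x c ≠ 0) ∧
      c0 ^ s.card * (kk ρ B W s).relIndex B ≤
        ((⨅ c ∈ s, St ρ (x c)).relIndex B : ℝ) ^ ((91 : ℝ) / 25) := by
    intro s
    induction s using Finset.induction_on with
    | empty =>
      intro _
      refine ⟨fun _ => 0, fun c hc => absurd hc (Finset.notMem_empty c), ?_⟩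
      have h1 : kk ρ B W ∅ = B := by
        ext r
        rw [mem_kk]
        exact ⟨fun h => h.1, fun h => ⟨h, fun c hc => absurd hc (Finset.notMem_empty c)⟩⟩
      have h2 : (⨅ c ∈ (∅ : Finset ι), St ρ ((fun _ => 0 : ι → V) c)) = (⊤ : Subgroup R) := by
        simp
      rw [h1, h2, Subgroup.relIndex_self, Subgroup.relIndex_top_left]
      simp
    | insert a s ha ih =>
      intro hs
      have hsA : s ⊆ A := fun c hc => hs (Finset.mem_insert_of_mem hc)
      have haA : a ∈ A := hs (Finset.mem_insert_self a s)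
      obtain ⟨x, hx, hle⟩ := ih hsA
      have hnot : ∃ r ∈ kk ρ B W s, ∃ v ∈ W a, ρ r v ≠ v := by
        by_contra hcon
        push Not at hcon
        have h1 : kk ρ B W (A.erase a) ≤ kk ρ B W s := by
          apply kk_mono
          intro c hc
          rw [Finset.mem_erase]
          refine ⟨?_, hsA hc⟩
          rintro rfl
          exact ha hc
        have h2 : kk ρ B W (A.erase a) ≤ kk ρ B W A := by
          have h3 := Finset.insert_erase haA
          rw [← h3, kk_insert, h3]
          apply le_inf le_rfl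
          intro r hr w hw
          exact hcon r (h1 hr) w hw
        have h4 := hmin1 (A.erase a) (h2.trans hA1)
        rw [Finset.card_erase_of_mem haA] at h4
        have h5 : 0 < A.card := Finset.card_pos.2 hne
        omega
      obtain ⟨xa, hxa, hlea⟩ := hyp a (kk ρ B W s) (kk_le s) (kk_normal hW s) hnot
      have hpos : (1 : ℝ) ≤ (Ck ρ (W a)).relIndex (kk ρ B W s) := by
        exact_mod_cast Nat.one_le_iff_ne_zero.2 (rix_ne' _ _)
      have hxa0 : xa ≠ 0 := by
        rintro rfl
        have h1 : St ρ (0 : V) = ⊤ := by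
          ext r
          rw [mem_St]
          simp
        rw [h1, Subgroup.relIndex_top_left, Nat.cast_one, Real.one_rpow] at hlea
        have h2 := c0_gt
        nlinarith
      refine ⟨Function.update x a xa, ?_, ?_⟩
      · intro c hc
        rcases Finset.mem_insert.1 hc with hca | hcs
        · rw [hca, Function.update_self]
          exact ⟨hxa, hxa0⟩
        · have hca : c ≠ a := fun h => ha (h ▸ hcs)
          rw [Function.update_of_ne hca]
          exact hx c hcs
      · have hS : (⨅ c ∈ insert a s, St ρ (Function.update x a xa c)) =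
            St ρ xa ⊓ ⨅ c ∈ s, St ρ (x c) := by
          rw [Finset.iInf_insert, Function.update_self]
          congr 1
          apply iInf_congr
          intro c
          apply iInf_congr
          intro hc
          have hca : c ≠ a := by
            rintro rfl
            exact ha hc
          rw [Function.update_of_ne hca]
        set S : Subgroup R := ⨅ c ∈ s, St ρ (x c) with hSdef
        have hkS : kk ρ B W s ≤ S ⊓ B := by
          apply le_inf _ (kk_le s)
          rw [hSdef]
          refine le_iInf fun c => le_iInf fun hc => ?_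
          intro r hr
          exact (mem_kk.1 hr).2 c hc (x c) (hx c hc).1
        have h1 : (kk ρ B W (insert a s)).relIndex B =
            (Ck ρ (W a)).relIndex (kk ρ B W s) * (kk ρ B W s).relIndex B := by
          rw [kk_insert, ← Subgroup.relIndex_mul_relIndex _ (kk ρ B W s) B inf_le_left (kk_le s),
            Subgroup.inf_relIndex_left]
        have h2 : (St ρ xa).relIndex (kk ρ B W s) * S.relIndex B ≤
            (St ρ xa ⊓ S).relIndex B := by
          rw [← Subgroup.relIndex_inf_mul_relIndex]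
          exact Nat.mul_le_mul_right _
            (Subgroup.relIndex_le_of_le_right hkS (rix_ne' _ _))
        rw [hS, h1, Finset.card_insert_of_notMem ha]
        have h3 : ((St ρ xa).relIndex (kk ρ B W s) : ℝ) * S.relIndex B ≤
            ((St ρ xa ⊓ S).relIndex B : ℝ) := by exact_mod_cast h2
        calc c0 ^ (s.card + 1) * (((Ck ρ (W a)).relIndex (kk ρ B W s) *
              (kk ρ B W s).relIndex B : ℕ) : ℝ)
            = (c0 * (Ck ρ (W a)).relIndex (kk ρ B W s)) *
              (c0 ^ s.card * (kk ρ B W s).relIndex B) := by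
              push_cast
              ring
          _ ≤ ((St ρ xa).relIndex (kk ρ B W s) : ℝ) ^ ((91 : ℝ) / 25) *
              (S.relIndex B : ℝ) ^ ((91 : ℝ) / 25) := by
              apply mul_le_mul hlea hle
              · exact mul_nonneg (pow_nonneg c0_pos.le _) (Nat.cast_nonneg _)
              · exact Real.rpow_nonneg (Nat.cast_nonneg _) _
          _ = (((St ρ xa).relIndex (kk ρ B W s) : ℝ) * S.relIndex B) ^ ((91 : ℝ) / 25) :=
              (Real.mul_rpow (Nat.cast_nonneg _) (Nat.cast_nonneg _)).symm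
          _ ≤ _ := by
              apply Real.rpow_le_rpow _ h3 (by norm_num)
              positivity
  obtain ⟨x, hx, hle⟩ := key A (Finset.Subset.refl A)
  refine ⟨A, x, hne, hx, le_trans ?_ hle⟩
  apply mul_le_mul_of_nonneg_left _ (pow_nonneg c0_pos.le _)
  exact_mod_cast Subgroup.relIndex_le_of_le_left hA1 (rix_ne' _ _)

end Pool.Agent.H77.FI
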