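import Pool.Agent.H6.FI.TargetsB

/-!
# Subgroups of the symmetric group of degree 5
-/

set_option autoImplicit false

open scoped Classical

namespace Pool.Agent.H77.FI

open _root_.FI

theorem card_A5 : Nat.card A5 = 60 := by
  have h := two_mul_nat_card_alternatingGroup (α := Fin 5)
  rw [Nat.card_perm, Nat.card_eq_fintype_card (α := Fin 5), Fintype.card_fin] at h
  have h2 : Nat.factorial 5 = 120 := by decide
  rw [h2] at h
  change 2 * Nat.card A5 = 120 at h
  omega

theorem index_ge (T₀ : Subgroup A5) (hT : T₀ ≠ ⊤) : 5 ≤ T₀.index := by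
  have hs : IsSimpleGroup A5 := alternatingGroup.isSimpleGroup (by simp)
  have hk : (MulAction.toPermHom A5 (A5 ⧸ T₀)).ker = ⊥ := by
    rcases hs.eq_bot_or_eq_top_of_normal (MulAction.toPermHom A5 (A5 ⧸ T₀)).ker
      inferInstance with h | h
    · exact h
    · exfalso
      apply hT
      rw [← Subgroup.normalCore_eq_ker] at h
      rw [eq_top_iff, ← h]
      exact Subgroup.normalCore_le T₀
  have hinj : Function.Injective (MulAction.toPermHom A5 (A5 ⧸ T₀)) :=
    (MonoidHom.ker_eq_bot_iff _).1 hk
  have hdvd := Subgroup.card_dvd_of_injective _ hinj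
  rw [card_A5, Nat.card_perm] at hdvd
  have hidx : Nat.card (A5 ⧸ T₀) = T₀.index := rfl
  rw [hidx] at hdvd
  by_contra hlt
  have h1 : T₀.index ≤ 4 := by omega
  have h2 : T₀.index.factorial ∣ Nat.factorial 4 := Nat.factorial_dvd_factorial h1
  have h3 : 60 ∣ Nat.factorial 4 := hdvd.trans h2
  revert h3
  decide

theorem pf_S5S : T_S5S := by
  intro T G _ hG hT
  have hT0 : T.subgroupOf A5 ≠ ⊤ := by
    rw [Ne, Subgroup.subgroupOf_eq_top]
    exact hT
  have hn : 5 ≤ T.relIndex A5 := index_ge _ hT0
  constructor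
  · have h1 : T.relIndex A5 ≤ T.relIndex ⊤ :=
      Subgroup.relIndex_le_of_le_right le_top Subgroup.index_ne_zero_of_finite
    rw [Subgroup.relIndex_top_right] at h1
    have h2 := Subgroup.card_mul_index T
    rw [Nat.card_perm, Nat.card_eq_fintype_card (α := Fin 5), Fintype.card_fin] at h2
    have h3 : Nat.factorial 5 = 120 := by decide
    rw [h3] at h2
    have h4 : Nat.card T * 5 ≤ 120 := by
      rw [← h2]
      exact Nat.mul_le_mul_left _ (hn.trans h1)
    omega
  · exact hn.trans (Subgroup.relIndex_le_of_le_right hG Subgroup.index_ne_zero_of_finite)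

end Pool.Agent.H77.FI
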