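import Pool.Agent.H6.FI.TargetsA

/-!
# The stabiliser of a vector supported on a set of blocks
-/

set_option autoImplicit false

open scoped Classical

namespace Pool.Agent.H77.FI

open _root_.FI

/-- uniqueness of the decomposition into independent components -/
theorem eq_of_sum {V ι : Type} [AddCommGroup V] [Fintype ι] (W : ι → AddSubgroup V)
    (hW : iSupIndep W) (f g : ι → V) (hf : ∀ c, f c ∈ W c) (hg : ∀ c, g c ∈ W c)
    (h : ∑ c, f c = ∑ c, g c) : f = g := by
  funext c
  have h1 : f c - g c = ∑ j ∈ Finset.univ.erase c, (g j - f j) := by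
    have h2 := Finset.add_sum_erase Finset.univ f (Finset.mem_univ c)
    have h3 := Finset.add_sum_erase Finset.univ g (Finset.mem_univ c)
    rw [Finset.sum_sub_distrib, sub_eq_sub_iff_add_eq_add, h2, h, ← h3, add_comm]
  have h2 : f c - g c ∈ ⨆ (j) (_ : j ≠ c), W j := by
    rw [h1]
    refine AddSubgroup.sum_mem _ fun j hj => ?_
    have hj' : j ≠ c := (Finset.mem_erase.1 hj).1
    have h3 : W j ≤ ⨆ (j) (_ : j ≠ c), W j := le_iSup₂_of_le j hj' le_rfl
    exact h3 ((W j).sub_mem (hg j) (hf j))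
  have h3 : f c - g c ∈ W c := (W c).sub_mem (hf c) (hg c)
  have h4 := (AddSubgroup.disjoint_def.1 (hW c)) h3 h2
  exact sub_eq_zero.1 h4

variable {R V : Type} [Group R] [AddCommGroup V]

theorem rix_ne {R : Type} [Group R] [Finite R] (A B : Subgroup R) : A.relIndex B ≠ 0 :=
  Subgroup.index_ne_zero_of_finite

theorem rho_inv (ρ : R →* AddMonoid.End V) (r : R) (v : V) : ρ r⁻¹ (ρ r v) = v := by
  have h : ρ (r⁻¹ * r) v = v := by
    rw [inv_mul_cancel, map_one]
    rfl
  rw [map_mul, AddMonoid.End.coe_mul, Function.comp_apply] at h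
  exact h

theorem rho_ne (ρ : R →* AddMonoid.End V) (r : R) {v : V} (hv : v ≠ 0) : ρ r v ≠ 0 := by
  intro h
  apply hv
  rw [← rho_inv ρ r v, h, map_zero]

/-- the components of a fixed vector -/
theorem comp_of_fixed [Finite R] (ρ : R →* AddMonoid.End V) (H : Subgroup R)
    (W : R ⧸ H → AddSubgroup V) (hI : Imp ρ H W) (A : Finset (R ⧸ H)) (x : R ⧸ H → V)
    (hx : ∀ c ∈ A, x c ∈ W c ∧ x c ≠ 0) (r : R) (hr : ρ r (∑ c ∈ A, x c) = ∑ c ∈ A, x c)
    (c : R ⧸ H) :
    (if r • c ∈ A then x (r • c) else 0) = ρ r (if c ∈ A then x c else 0) := by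
  have : Finite (R ⧸ H) := inferInstance
  have hft : Fintype (R ⧸ H) := Fintype.ofFinite _
  set f : R ⧸ H → V := fun c => if c ∈ A then x c else 0 with hf
  have hfW : ∀ c, f c ∈ W c := by
    intro c
    rw [hf]
    by_cases hc : c ∈ A
    · simp only [if_pos hc]
      exact (hx c hc).1
    · simp only [if_neg hc]
      exact (W c).zero_mem
  have hsum : ∑ c, f c = ∑ c ∈ A, x c := by
    rw [hf, ← Finset.sum_filter]
    apply Finset.sum_congr _ fun _ _ => rfl
    ext c
    simp
  have hgW : ∀ c, ρ r (f (r⁻¹ • c)) ∈ W c := by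
    intro c
    have h1 := hI.perm r (r⁻¹ • c) (f (r⁻¹ • c)) (hfW _)
    rw [smul_inv_smul] at h1
    exact h1
  have hgsum : ∑ c, ρ r (f (r⁻¹ • c)) = ∑ c ∈ A, x c := by
    rw [← map_sum]
    have h1 : ∑ c, f (r⁻¹ • c) = ∑ c, f c :=
      Equiv.sum_comp (MulAction.toPerm (r⁻¹) : Equiv.Perm (R ⧸ H)) f
    rw [h1, hsum, hr]
  have h2 := eq_of_sum W hI.ind f (fun c => ρ r (f (r⁻¹ • c))) hfW hgW (by rw [hsum, hgsum])
  have h3 := congrFun h2 (r • c)
  rw [inv_smul_smul] at h3
  exact h3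

theorem core_smul (H : Subgroup R) {b : R} (hb : b ∈ H.normalCore) (c : R ⧸ H) : b • c = c := by
  induction c using QuotientGroup.induction_on with
  | H g =>
    rw [MulAction.Quotient.smul_mk, QuotientGroup.eq]
    have h1 : g⁻¹ * b⁻¹ * g⁻¹⁻¹ ∈ H := (H.normalCore.inv_mem hb) g⁻¹
    rw [inv_inv] at h1
    rw [smul_eq_mul, mul_inv_rev]
    exact h1

theorem pf_STB : T_STB := by
  intro R V _ _ _ _ ρ H W hI A x hx
  have hcomp := comp_of_fixed ρ H W hI A x hx
  have h1 : St ρ (∑ c ∈ A, x c) ≤ StA A := by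
    intro r hr c
    have h2 := hcomp r hr c
    by_cases hc : c ∈ A
    · rw [if_pos hc] at h2
      have h3 := rho_ne ρ r (hx c hc).2
      rw [← h2] at h3
      constructor
      · intro _
        exact hc
      · intro _
        by_contra h4
        rw [if_neg h4] at h3
        exact h3 rfl
    · rw [if_neg hc, map_zero] at h2
      constructor
      · intro h4
        rw [if_pos h4] at h2
        exact absurd h2 (hx _ h4).2
      · intro h4
        exact absurd h4 hc
  have h2 : H.normalCore ≤ StA A := by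
    intro b hb c
    rw [core_smul H hb]
  have h3 : St ρ (∑ c ∈ A, x c) ⊓ H.normalCore ≤ ⨅ c ∈ A, St ρ (x c) := by
    rintro b ⟨hb1, hb2⟩
    rw [Subgroup.mem_iInf]
    intro c
    rw [Subgroup.mem_iInf]
    intro hc
    have h4 := hcomp b hb1 c
    rw [core_smul H hb2, if_pos hc] at h4
    exact h4.symm
  have h4 : (⨅ c ∈ A, St ρ (x c)).relIndex H.normalCore ≤
      (St ρ (∑ c ∈ A, x c) ⊓ H.normalCore).relIndex H.normalCore :=
    Subgroup.relIndex_le_of_le_left h3 (rix_ne _ _)
  rw [Subgroup.inf_relIndex_right] at h4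
  have h5 : (St ρ (∑ c ∈ A, x c)).relIndex H.normalCore ≤
      (St ρ (∑ c ∈ A, x c)).relIndex (StA A) :=
    Subgroup.relIndex_le_of_le_right h2 (rix_ne _ _)
  rw [← Subgroup.relIndex_mul_index h1, mul_comm]
  exact Nat.mul_le_mul_right _ (h4.trans h5)

end Pool.Agent.H77.FI
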